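import Pool.Agent.Helper74_RL.Stmts

/-! # RLB, module PGH: pointed Gromov-Hausdorff convergence of the blow-ups -/

noncomputable section

open scoped ContDiff Topology ENNReal RealInnerProductSpace BoundedContinuousFunction
set_option maxSynthPendingDepth 3
open Set Metric

namespace Pool.Agent.RLim.H48

open Pool.Agent.RLim
open Pool.Agent.RF

theorem norm_X0 : ‖X0‖ = 10 := by
  have h : ‖X0‖ ^ 2 = 10 ^ 2 := by
    rw [norm_sq4]; simp [X0]
  exact (pow_left_inj₀ (norm_nonneg _) (by norm_num) two_ne_zero).1 h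

theorem pgh (hPrj : PrjStmt) : PghStmt := by
  intro D c C h σ d hd hC hσ hconv R hR ε hε
  obtain ⟨p1, p2, -, p4, p5, p6⟩ := hPrj D
  have hc : 0 < c := hd.c_pos
  obtain ⟨N1, hN1⟩ := hconv (10 + R / c) ε hε
  obtain ⟨N2, hN2⟩ := p4 (ε / (2 * C)) (by positivity)
  have hbd : ∀ (x y : E4) (t : ℝ), c * ‖x - y‖ ≤ t → t < R → ‖y‖ = 10 → ‖x‖ ≤ 10 + R / c := by
    intro x y t h1 h2 h3
    have h4 : ‖x - y‖ ≤ R / c := by
      rw [le_div_iff₀ hc]; linarith
    have h5 : ‖x‖ ≤ ‖x - y‖ + ‖y‖ := by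
      simpa using norm_add_le (x - y) y
    linarith
  refine ⟨max N1 N2, fun i hi => ?_⟩
  have hi1 : N1 ≤ i := (le_max_left _ _).trans hi
  have hi2 : N2 ≤ σ i := ((le_max_right _ _).trans hi).trans hσ.le_apply
  -- points of the balls
  have hball : ∀ a : Bl D (σ i), dd D (σ i) a (psi0 D (σ i) X0) < R → ‖a.1.1‖ ≤ 10 + R / c := by
    intro a ha
    refine hbd a.1.1 X0 _ ?_ ha norm_X0
    refine le_trans ?_ ((h (σ i)).low _ _)
    refine mul_le_mul_of_nonneg_left ?_ hc.le
    rw [Subtype.dist_eq, Prod.dist_eq, ← dist_eq_norm]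
    exact le_max_left _ _
  have hball' : ∀ y : BlI D, d y (psiI D X0) < R → ‖y.1.1‖ ≤ 10 + R / c := by
    intro y hy
    refine hbd y.1.1 X0 _ ?_ hy norm_X0
    refine le_trans ?_ (hd.low _ _)
    refine mul_le_mul_of_nonneg_left ?_ hc.le
    rw [Subtype.dist_eq, Prod.dist_eq, ← dist_eq_norm]
    exact le_max_left _ _
  refine ⟨sec D (σ i), ?_, ?_, ?_⟩
  · change d (sec D (σ i) (psi0 D (σ i) X0)) (psiI D X0) < ε
    rw [p6, hd.self]
    exact hε
  · intro a ha b hb
    have ha' : dd D (σ i) a (psi0 D (σ i) X0) < R := ha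
    have hb' : dd D (σ i) b (psi0 D (σ i) X0) < R := hb
    change |d (sec D (σ i) a) (sec D (σ i) b) - dd D (σ i) a b| < ε
    have h1 := hN1 i hi1 (sec D (σ i) a) (sec D (σ i) b) (hball a ha') (hball b hb')
    rw [p2, p2] at h1
    rwa [abs_sub_comm]
  · intro y hy
    have hy' : d y (psiI D X0) < R - ε := hy
    have hyR : d y (psiI D X0) < R := by linarith
    refine ⟨prj D (σ i) y, ?_, ?_⟩
    · change dd D (σ i) (prj D (σ i) y) (psi0 D (σ i) X0) < R
      have h0 : ‖(psiI D X0).1.1‖ ≤ 10 + R / c := by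
        change ‖X0‖ ≤ _
        rw [norm_X0]
        have : 0 ≤ R / c := by positivity
        linarith
      have h1 := hN1 i hi1 y (psiI D X0) (hball' y hyR) h0
      rw [p5] at h1
      have h2 := (abs_lt.1 h1).2
      linarith
    · change d (sec D (σ i) (prj D (σ i) y)) y < ε
      have h1 := hd.up (sec D (σ i) (prj D (σ i) y)) y
      have h2 := hN2 (σ i) hi2 y
      have h3 : C * dist (sec D (σ i) (prj D (σ i) y)) y ≤ C * (ε / (2 * C)) :=
        mul_le_mul_of_nonneg_left h2 hC.le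
      have h4 : C * (ε / (2 * C)) = ε / 2 := by field_simp
      linarith

end Pool.Agent.RLim.H48
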