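import Pool.Agent.Helper74_RL.Stmts
import Mathlib.MeasureTheory.Measure.Haar.NormedSpace

/-! # RLB, module VOL: the volume of the unit balls -/

noncomputable section

open scoped ContDiff Topology ENNReal RealInnerProductSpace BoundedContinuousFunction
set_option maxSynthPendingDepth 3
open Set Metric

namespace Pool.Agent.RLim.H48

open Pool.Agent.RLim
open Pool.Agent.RF

theorem norm_X0' : ‖X0‖ = 10 := by
  have h : ‖X0‖ ^ 2 = 10 ^ 2 := by
    rw [norm_sq4]; simp [X0]
  exact (pow_left_inj₀ (norm_nonneg _) (by norm_num) two_ne_zero).1 h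

theorem hvol_aux {M : Type} [MetricSpace M] {K : NNReal} (π : M → E4) (hπ : LipschitzWith K π)
    (s : Set M) (B : Set E4) (hB : B ⊆ π '' s) :
    MeasureTheory.Measure.hausdorffMeasure (4 : ℝ) B ≤ (K : ℝ≥0∞) ^ (4 : ℝ) * hvol 4 s := by
  letI : MeasurableSpace M := borel M
  haveI : BorelSpace M := ⟨rfl⟩
  refine (MeasureTheory.measure_mono hB).trans ?_
  have := hπ.hausdorffMeasure_image_le (d := (4:ℝ)) (by norm_num) s
  have h4 : hvol 4 s = MeasureTheory.Measure.hausdorffMeasure (4 : ℝ) s := by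
    unfold hvol
    norm_num
  rw [h4]
  exact this

theorem pos_ball {r : ℝ} (hr : 0 < r) :
    0 < MeasureTheory.Measure.hausdorffMeasure (4 : ℝ) (ball X0 r) := by
  have h := MeasureTheory.isAddHaarMeasure_hausdorffMeasure (E := E4)
  have h2 : (Module.finrank ℝ E4 : ℝ) = 4 := by
    simp
  rw [h2] at h
  exact Metric.measure_ball_pos _ _ hr

theorem vol (hHpl : HplStmt) : VolStmt := by
  intro D c C hC
  by_cases hc : 0 < c
  swap
  · exact ⟨1, one_pos, fun j h => absurd h.c_pos hc⟩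
  set r : ℝ := min 1 (1 / C) / 2 with hr
  have hr0 : 0 < r := by positivity
  have hr1 : r ≤ 1 / 2 := by
    have : min 1 (1 / C) ≤ 1 := min_le_left _ _
    linarith
  have hrC : C * r ≤ 1 / 2 := by
    have h1 : min 1 (1 / C) ≤ 1 / C := min_le_right _ _
    have h2 : C * min 1 (1 / C) ≤ C * (1 / C) := mul_le_mul_of_nonneg_left h1 hC.le
    have h3 : C * (1 / C) = 1 := by field_simp
    rw [hr]
    linarith
  -- the section
  have hdist : ∀ (j : ℕ) (X : E4), dist X X0 < r → dist (psi0 D j X) (psi0 D j X0) ≤ dist X X0 := by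
    intro j X hX
    rw [Subtype.dist_eq, Prod.dist_eq]
    refine max_le le_rfl ?_
    refine (dist_pi_le_iff dist_nonneg).2 fun k => ?_
    change dist (D.w k • hd (X - D.P k)) (D.w k • hd (X0 - D.P k)) ≤ _
    have hP := D.P_le k
    have h8 : 8 ≤ ‖X0 - D.P k‖ := by
      have h1 : ‖X0‖ ≤ ‖X0 - D.P k‖ + ‖D.P k‖ := by
        simpa using norm_add_le (X0 - D.P k) (D.P k)
      rw [norm_X0'] at h1
      linarith
    have h7 : 7 ≤ ‖X - D.P k‖ := by
      have h1 : ‖X0 - D.P k‖ ≤ ‖X - D.P k‖ + ‖X0 - X‖ := by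
        have := norm_add_le (X - D.P k) (X0 - X)
        have e : X - D.P k + (X0 - X) = X0 - D.P k := by abel
        rwa [e] at this
      have h2 : ‖X0 - X‖ = dist X X0 := by rw [dist_comm, dist_eq_norm]
      rw [h2] at h1
      linarith
    have hn0 : X0 - D.P k ≠ 0 := by
      intro h0; rw [h0, norm_zero] at h8; linarith
    have hn : X - D.P k ≠ 0 := by
      intro h0; rw [h0, norm_zero] at h7; linarith
    rw [dist_smul₀, hd_of_ne hn, hd_of_ne hn0, dist_eq_norm]
    have h1 := hHpl.2.1 (X - D.P k) (X0 - D.P k) hn hn0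
    have e : X - D.P k - (X0 - D.P k) = X - X0 := by abel
    rw [e] at h1
    have h2 : 4 * ‖X - X0‖ / ‖X - D.P k‖ ≤ ‖X - X0‖ := by
      rw [div_le_iff₀ (by linarith)]
      nlinarith [norm_nonneg (X - X0)]
    have h3 : ‖D.w k‖ ≤ 1 := by
      rw [Real.norm_of_nonneg (D.w_pos k).le]
      have := w_le_one D k
      linarith
    rw [dist_eq_norm]
    calc ‖D.w k‖ * ‖hopf (X - D.P k) - hopf (X0 - D.P k)‖
        ≤ 1 * ‖hopf (X - D.P k) - hopf (X0 - D.P k)‖ :=
          mul_le_mul_of_nonneg_right h3 (norm_nonneg _)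
      _ ≤ ‖X - X0‖ := by rw [one_mul]; exact h1.trans h2
  set m : ℝ≥0∞ := MeasureTheory.Measure.hausdorffMeasure (4 : ℝ) (ball X0 r) with hm
  have hm0 : 0 < m := pos_ball hr0
  -- the Lipschitz constant
  let K : NNReal := ⟨1 / c, by positivity⟩
  have hK0 : (K : ℝ≥0∞) ^ (4 : ℝ) ≠ 0 := by
    have : (K : ℝ≥0∞) ≠ 0 := by
      have h1 : (0:ℝ) < (K : ℝ) := by change 0 < 1 / c; positivity
      have h2 : K ≠ 0 := by
        intro h0; rw [h0] at h1; simp at h1
      exact_mod_cast h2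
    simp [this]
  have hKt : (K : ℝ≥0∞) ^ (4 : ℝ) ≠ ⊤ := by
    simp
  have hpos : 0 < m / (K : ℝ≥0∞) ^ (4 : ℝ) := ENNReal.div_pos hm0.ne' hKt
  obtain ⟨v, hv0, hv⟩ := ENNReal.lt_iff_exists_nnreal_btwn.1 hpos
  refine ⟨v, by exact_mod_cast hv0, fun j h => ?_⟩
  rw [ENNReal.ofReal_coe_nnreal]
  refine hv.trans_le ?_
  refine ENNReal.div_le_of_le_mul' ?_
  refine @hvol_aux (Bl D j) (bilMet h) K (fun p => p.1.1) ?_ _ _ ?_
  · refine @LipschitzWith.of_dist_le_mul (Bl D j) E4 (bilMet h).toPseudoMetricSpace _ K _ ?_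
    intro x y
    change dist x.1.1 y.1.1 ≤ (1 / c) * dd D j x y
    have h1 := h.low x y
    have h2 : dist x.1.1 y.1.1 ≤ dist x y := by
      rw [Subtype.dist_eq x y, Prod.dist_eq]
      exact le_max_left _ _
    rw [one_div, ← div_eq_inv_mul, le_div_iff₀ hc]
    nlinarith
  · intro X hX
    refine ⟨psi0 D j X, ?_, rfl⟩
    change dd D j (psi0 D j X) (psi0 D j X0) < 1
    have h1 := h.up (psi0 D j X) (psi0 D j X0)
    have h2 := hdist j X hX
    have h3 : dist X X0 < r := hX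
    have h4 : C * dist (psi0 D j X) (psi0 D j X0) ≤ C * r :=
      mul_le_mul_of_nonneg_left (h2.trans h3.le) hC.le
    linarith

end Pool.Agent.RLim.H48
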